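import Mathlib

/-! A simple solution of the Yang-Baxter equation on `Y × Z`, `|Y| = 2`, `|Z| = 4`, with the sets
`{y} × Z` as blocks of imprimitivity. -/

namespace Pool.Agent.Results.MP_9f168b_al.TwoByFour

/-- A solution of the Yang-Baxter equation that is involutive and non-degenerate. -/
structure Solution (X : Type*) where
  /-- the map `r` -/
  r : X × X → X × X
  /-- `r` is bijective -/
  bij : Function.Bijective r
  /-- the braid equation `r₁₂ r₂₃ r₁₂ = r₂₃ r₁₂ r₂₃` on `X³` -/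
  braid : ∀ x y z : X,
    (let r12 : X × X × X → X × X × X := fun a => ((r (a.1, a.2.1)).1, (r (a.1, a.2.1)).2, a.2.2)
     let r23 : X × X × X → X × X × X := fun a => (a.1, r a.2)
     r12 (r23 (r12 (x, y, z))) = r23 (r12 (r23 (x, y, z))))
  /-- `r² = id` -/
  invol : ∀ p, r (r p) = p
  /-- every `σ_x` is a permutation, where `r (x, y) = (σ_x y, τ_y x)` -/
  left : ∀ x, Function.Bijective fun y => (r (x, y)).1
  /-- every `τ_y` is a permutation -/
  right : ∀ y, Function.Bijective fun x => (r (x, y)).2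

/-- the permutation `σ_x` -/
noncomputable def Solution.sigma {X : Type*} (S : Solution X) (x : X) : Equiv.Perm X :=
  Equiv.ofBijective _ (S.left x)

/-- the permutation group `𝒢(X, r)` generated by the `σ_x` -/
def Solution.G {X : Type*} (S : Solution X) : Subgroup (Equiv.Perm X) :=
  Subgroup.closure (Set.range S.sigma)

/-- homomorphisms of solutions -/
def IsHom {X X' : Type*} (S : Solution X) (S' : Solution X') (f : X → X') : Prop :=
  ∀ p : X × X, (f (S.r p).1, f (S.r p).2) = S'.r (f p.1, f p.2)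

/-- `(X, r)` is simple: `|X| > 1` and every epimorphism onto a solution `(X', r')` is bijective
or has `|X'| = 1`. -/
def Solution.IsSimple.{u, v} {X : Type u} (S : Solution X) : Prop :=
  Nontrivial X ∧ ∀ (X' : Type v) (S' : Solution X') (f : X → X'), IsHom S S' f →
    Function.Surjective f → Function.Bijective f ∨ Nat.card X' = 1

/-- the table of the permutations `σ_x` on `Fin 8` -/
def sg : Fin 8 → Fin 8 → Fin 8 :=
  ![![0, 2, 1, 3, 6, 7, 4, 5],
    ![5, 6, 7, 4, 0, 3, 1, 2],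
    ![3, 1, 2, 0, 6, 7, 4, 5],
    ![5, 6, 7, 4, 3, 0, 2, 1],
    ![5, 7, 6, 4, 3, 0, 1, 2],
    ![2, 3, 0, 1, 4, 5, 7, 6],
    ![4, 6, 7, 5, 3, 0, 1, 2],
    ![2, 3, 0, 1, 5, 4, 6, 7]]

/-- the table of the permutations `τ_y` on `Fin 8` -/
def ta : Fin 8 → Fin 8 → Fin 8 :=
  ![![0, 3, 6, 1, 4, 7, 2, 5],
    ![3, 6, 7, 4, 5, 0, 1, 2],
    ![4, 3, 2, 1, 0, 7, 6, 5],
    ![5, 6, 1, 4, 3, 0, 7, 2],
    ![5, 2, 7, 4, 3, 0, 1, 6],
    ![2, 7, 0, 3, 6, 5, 4, 1],
    ![5, 6, 7, 0, 3, 4, 1, 2],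
    ![2, 1, 0, 5, 6, 3, 4, 7]]

theorem all_0_1 {α : Type*} (f : Fin 8 → α)
    (hf : ∀ x x' y y' : Fin 8, f x = f x' → f y = f y' → f (sg x y) = f (sg x' y'))
    (h : f 0 = f 1) : ∀ i, f 0 = f i := by
  have h1 : f 0 = f 5 := hf 0 1 0 0 h rfl
  have h2 : f 0 = f 2 := hf 0 0 0 1 rfl h
  have h3 : f 2 = f 6 := hf 0 1 1 1 h rfl
  have h4 : f 1 = f 7 := hf 0 1 2 2 h rfl
  have h5 : f 3 = f 1 := hf 2 2 0 1 rfl h
  have h6 : f 3 = f 4 := hf 0 1 3 3 h rfl
  intro i
  fin_cases i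
  · rfl
  · exact h
  · exact h2
  · exact (h).trans (h5.symm)
  · exact ((h).trans (h5.symm)).trans h6
  · exact h1
  · exact (h2).trans h3
  · exact (h).trans h4

theorem all_0_2 {α : Type*} (f : Fin 8 → α)
    (hf : ∀ x x' y y' : Fin 8, f x = f x' → f y = f y' → f (sg x y) = f (sg x' y'))
    (h : f 0 = f 2) : ∀ i, f 0 = f i := by
  have h1 : f 0 = f 3 := hf 0 2 0 0 h rfl
  have h2 : f 0 = f 1 := hf 0 0 0 2 rfl h
  have h3 : f 5 = f 7 := hf 1 1 0 2 rfl h
  have h4 : f 5 = f 6 := hf 4 4 0 2 rfl h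
  have h5 : f 4 = f 7 := hf 6 6 0 2 rfl h
  have h6 : f 0 = f 5 := hf 0 3 0 0 h1 rfl
  intro i
  fin_cases i
  · rfl
  · exact h2
  · exact h
  · exact h1
  · exact ((h6).trans h3).trans (h5.symm)
  · exact h6
  · exact (h6).trans h4
  · exact (h6).trans h3

theorem all_0_3 {α : Type*} (f : Fin 8 → α)
    (hf : ∀ x x' y y' : Fin 8, f x = f x' → f y = f y' → f (sg x y) = f (sg x' y'))
    (h : f 0 = f 3) : ∀ i, f 0 = f i := by
  have h1 : f 0 = f 5 := hf 0 3 0 0 h rfl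
  have h2 : f 2 = f 6 := hf 0 3 1 1 h rfl
  have h3 : f 5 = f 4 := hf 1 1 0 3 rfl h
  have h4 : f 1 = f 7 := hf 0 3 2 2 h rfl
  have h5 : f 6 = f 3 := hf 0 3 4 4 h rfl
  have h6 : f 7 = f 0 := hf 0 3 5 5 h rfl
  intro i
  fin_cases i
  · rfl
  · exact (h6.symm).trans (h4.symm)
  · exact ((h).trans (h5.symm)).trans (h2.symm)
  · exact h
  · exact (h1).trans h3
  · exact h1
  · exact (h).trans (h5.symm)
  · exact h6.symm

theorem all_0_4 {α : Type*} (f : Fin 8 → α)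
    (hf : ∀ x x' y y' : Fin 8, f x = f x' → f y = f y' → f (sg x y) = f (sg x' y'))
    (h : f 0 = f 4) : ∀ i, f 0 = f i := by
  have h1 : f 0 = f 5 := hf 0 4 0 0 h rfl
  have h2 : f 0 = f 6 := hf 0 0 0 4 rfl h
  have h3 : f 2 = f 7 := hf 0 4 1 1 h rfl
  have h4 : f 1 = f 6 := hf 0 4 2 2 h rfl
  have h5 : f 3 = f 6 := hf 2 2 0 4 rfl h
  have h6 : f 7 = f 0 := hf 0 4 5 5 h rfl
  intro i
  fin_cases i
  · rfl
  · exact (h2).trans (h4.symm)
  · exact (h6.symm).trans (h3.symm)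
  · exact (h2).trans (h5.symm)
  · exact h
  · exact h1
  · exact h2
  · exact h6.symm

theorem all_0_5 {α : Type*} (f : Fin 8 → α)
    (hf : ∀ x x' y y' : Fin 8, f x = f x' → f y = f y' → f (sg x y) = f (sg x' y'))
    (h : f 0 = f 5) : ∀ i, f 0 = f i := by
  have h1 : f 0 = f 2 := hf 0 5 0 0 h rfl
  have h2 : f 0 = f 7 := hf 0 0 0 5 rfl h
  have h3 : f 2 = f 3 := hf 0 5 1 1 h rfl
  have h4 : f 1 = f 0 := hf 0 5 2 2 h rfl
  have h5 : f 6 = f 4 := hf 0 5 4 4 h rfl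
  have h6 : f 4 = f 7 := hf 0 5 6 6 h rfl
  intro i
  fin_cases i
  · rfl
  · exact h4.symm
  · exact h1
  · exact (h1).trans h3
  · exact (h2).trans (h6.symm)
  · exact h
  · exact ((h2).trans (h6.symm)).trans (h5.symm)
  · exact h2

theorem all_0_6 {α : Type*} (f : Fin 8 → α)
    (hf : ∀ x x' y y' : Fin 8, f x = f x' → f y = f y' → f (sg x y) = f (sg x' y'))
    (h : f 0 = f 6) : ∀ i, f 0 = f i := by
  have h1 : f 0 = f 4 := hf 0 6 0 0 h rfl
  have h2 : f 2 = f 6 := hf 0 6 1 1 h rfl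
  have h3 : f 5 = f 1 := hf 1 1 0 6 rfl h
  have h4 : f 1 = f 7 := hf 0 6 2 2 h rfl
  have h5 : f 3 = f 4 := hf 2 2 0 6 rfl h
  have h6 : f 3 = f 5 := hf 0 6 3 3 h rfl
  intro i
  fin_cases i
  · rfl
  · exact (((h1).trans (h5.symm)).trans h6).trans h3
  · exact (h).trans (h2.symm)
  · exact (h1).trans (h5.symm)
  · exact h1
  · exact ((h1).trans (h5.symm)).trans h6
  · exact h
  · exact ((((h1).trans (h5.symm)).trans h6).trans h3).trans h4

theorem all_0_7 {α : Type*} (f : Fin 8 → α)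
    (hf : ∀ x x' y y' : Fin 8, f x = f x' → f y = f y' → f (sg x y) = f (sg x' y'))
    (h : f 0 = f 7) : ∀ i, f 0 = f i := by
  have h1 : f 0 = f 2 := hf 0 7 0 0 h rfl
  have h2 : f 0 = f 5 := hf 0 0 0 7 rfl h
  have h3 : f 2 = f 3 := hf 0 7 1 1 h rfl
  have h4 : f 1 = f 0 := hf 0 7 2 2 h rfl
  have h5 : f 6 = f 5 := hf 0 7 4 4 h rfl
  have h6 : f 7 = f 4 := hf 0 7 5 5 h rfl
  intro i
  fin_cases i
  · rfl
  · exact h4.symm
  · exact h1
  · exact (h1).trans h3
  · exact (h).trans h6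
  · exact h2
  · exact (h2).trans (h5.symm)
  · exact h

theorem all_1_2 {α : Type*} (f : Fin 8 → α)
    (hf : ∀ x x' y y' : Fin 8, f x = f x' → f y = f y' → f (sg x y) = f (sg x' y'))
    (h : f 1 = f 2) : ∀ i, f 0 = f i := by
  have h1 : f 5 = f 3 := hf 1 2 0 0 h rfl
  have h2 : f 6 = f 1 := hf 1 2 1 1 h rfl
  have h3 : f 6 = f 7 := hf 1 1 1 2 rfl h
  have h4 : f 4 = f 0 := hf 1 2 3 3 h rfl
  have h5 : f 0 = f 6 := hf 1 2 4 4 h rfl
  have h6 : f 3 = f 7 := hf 1 2 5 5 h rfl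
  intro i
  fin_cases i
  · rfl
  · exact (h5).trans h2
  · exact ((h5).trans h2).trans h
  · exact ((h5).trans h3).trans (h6.symm)
  · exact h4.symm
  · exact (((h5).trans h3).trans (h6.symm)).trans (h1.symm)
  · exact h5
  · exact (h5).trans h3

theorem all_1_3 {α : Type*} (f : Fin 8 → α)
    (hf : ∀ x x' y y' : Fin 8, f x = f x' → f y = f y' → f (sg x y) = f (sg x' y'))
    (h : f 1 = f 3) : ∀ i, f 0 = f i := by
  have h1 : f 2 = f 3 := hf 0 0 1 3 rfl h
  have h2 : f 6 = f 4 := hf 1 1 1 3 rfl h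
  have h3 : f 1 = f 0 := hf 2 2 1 3 rfl h
  have h4 : f 7 = f 4 := hf 4 4 1 3 rfl h
  have h5 : f 6 = f 5 := hf 6 6 1 3 rfl h
  have h6 : f 3 = f 5 := hf 2 3 0 0 h1 rfl
  intro i
  fin_cases i
  · rfl
  · exact h3.symm
  · exact ((h3.symm).trans h).trans (h1.symm)
  · exact (h3.symm).trans h
  · exact ((((h3.symm).trans h).trans h6).trans (h5.symm)).trans h2
  · exact ((h3.symm).trans h).trans h6
  · exact (((h3.symm).trans h).trans h6).trans (h5.symm)
  · exact (((((h3.symm).trans h).trans h6).trans (h5.symm)).trans h2).trans (h4.symm)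

theorem all_1_4 {α : Type*} (f : Fin 8 → α)
    (hf : ∀ x x' y y' : Fin 8, f x = f x' → f y = f y' → f (sg x y) = f (sg x' y'))
    (h : f 1 = f 4) : ∀ i, f 0 = f i := by
  have h1 : f 2 = f 6 := hf 0 0 1 4 rfl h
  have h2 : f 6 = f 7 := hf 1 4 1 1 h rfl
  have h3 : f 6 = f 0 := hf 1 1 1 4 rfl h
  have h4 : f 1 = f 6 := hf 2 2 1 4 rfl h
  have h5 : f 6 = f 3 := hf 3 3 1 4 rfl h
  have h6 : f 3 = f 5 := hf 7 7 1 4 rfl h
  intro i
  fin_cases i
  · rfl
  · exact (h3.symm).trans (h4.symm)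
  · exact (h3.symm).trans (h1.symm)
  · exact (h3.symm).trans h5
  · exact ((h3.symm).trans (h4.symm)).trans h
  · exact ((h3.symm).trans h5).trans h6
  · exact h3.symm
  · exact (h3.symm).trans h2

theorem all_1_5 {α : Type*} (f : Fin 8 → α)
    (hf : ∀ x x' y y' : Fin 8, f x = f x' → f y = f y' → f (sg x y) = f (sg x' y'))
    (h : f 1 = f 5) : ∀ i, f 0 = f i := by
  have h1 : f 5 = f 2 := hf 1 5 0 0 h rfl
  have h2 : f 2 = f 7 := hf 0 0 1 5 rfl h
  have h3 : f 6 = f 3 := hf 1 5 1 1 h rfl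
  have h4 : f 7 = f 0 := hf 1 5 2 2 h rfl
  have h5 : f 4 = f 1 := hf 1 5 3 3 h rfl
  have h6 : f 6 = f 0 := hf 3 3 1 5 rfl h
  intro i
  fin_cases i
  · rfl
  · exact (((h4.symm).trans (h2.symm)).trans (h1.symm)).trans (h.symm)
  · exact (h4.symm).trans (h2.symm)
  · exact (h6.symm).trans h3
  · exact ((((h4.symm).trans (h2.symm)).trans (h1.symm)).trans (h.symm)).trans (h5.symm)
  · exact ((h4.symm).trans (h2.symm)).trans (h1.symm)
  · exact h6.symm
  · exact h4.symm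

theorem all_1_6 {α : Type*} (f : Fin 8 → α)
    (hf : ∀ x x' y y' : Fin 8, f x = f x' → f y = f y' → f (sg x y) = f (sg x' y'))
    (h : f 1 = f 6) : ∀ i, f 0 = f i := by
  have h1 : f 5 = f 4 := hf 1 6 0 0 h rfl
  have h2 : f 2 = f 4 := hf 0 0 1 6 rfl h
  have h3 : f 1 = f 4 := hf 2 2 1 6 rfl h
  have h4 : f 0 = f 3 := hf 1 6 4 4 h rfl
  have h5 : f 7 = f 1 := hf 4 4 1 6 rfl h
  have h6 : f 3 = f 7 := hf 5 5 1 6 rfl h
  intro i
  fin_cases i
  · rfl
  · exact ((h4).trans h6).trans h5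
  · exact ((((h4).trans h6).trans h5).trans h3).trans (h2.symm)
  · exact h4
  · exact (((h4).trans h6).trans h5).trans h3
  · exact ((((h4).trans h6).trans h5).trans h3).trans (h1.symm)
  · exact (((h4).trans h6).trans h5).trans h
  · exact (h4).trans h6

theorem all_1_7 {α : Type*} (f : Fin 8 → α)
    (hf : ∀ x x' y y' : Fin 8, f x = f x' → f y = f y' → f (sg x y) = f (sg x' y'))
    (h : f 1 = f 7) : ∀ i, f 0 = f i := by
  have h1 : f 5 = f 2 := hf 1 7 0 0 h rfl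
  have h2 : f 6 = f 3 := hf 1 7 1 1 h rfl
  have h3 : f 6 = f 2 := hf 1 1 1 7 rfl h
  have h4 : f 7 = f 0 := hf 1 7 2 2 h rfl
  have h5 : f 1 = f 5 := hf 2 2 1 7 rfl h
  have h6 : f 4 = f 1 := hf 1 7 3 3 h rfl
  intro i
  fin_cases i
  · rfl
  · exact (h4.symm).trans (h.symm)
  · exact (((h4.symm).trans (h.symm)).trans h5).trans h1
  · exact (((((h4.symm).trans (h.symm)).trans h5).trans h1).trans (h3.symm)).trans h2
  · exact ((h4.symm).trans (h.symm)).trans (h6.symm)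
  · exact ((h4.symm).trans (h.symm)).trans h5
  · exact ((((h4.symm).trans (h.symm)).trans h5).trans h1).trans (h3.symm)
  · exact h4.symm

theorem all_2_3 {α : Type*} (f : Fin 8 → α)
    (hf : ∀ x x' y y' : Fin 8, f x = f x' → f y = f y' → f (sg x y) = f (sg x' y'))
    (h : f 2 = f 3) : ∀ i, f 0 = f i := by
  have h1 : f 3 = f 5 := hf 2 3 0 0 h rfl
  have h2 : f 1 = f 3 := hf 0 0 2 3 rfl h
  have h3 : f 1 = f 6 := hf 2 3 1 1 h rfl
  have h4 : f 7 = f 4 := hf 1 1 2 3 rfl h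
  have h5 : f 2 = f 7 := hf 2 3 2 2 h rfl
  have h6 : f 2 = f 0 := hf 2 2 2 3 rfl h
  intro i
  fin_cases i
  · rfl
  · exact ((h6.symm).trans h).trans (h2.symm)
  · exact h6.symm
  · exact (h6.symm).trans h
  · exact ((h6.symm).trans h5).trans h4
  · exact ((h6.symm).trans h).trans h1
  · exact (((h6.symm).trans h).trans (h2.symm)).trans h3
  · exact (h6.symm).trans h5

theorem all_2_4 {α : Type*} (f : Fin 8 → α)
    (hf : ∀ x x' y y' : Fin 8, f x = f x' → f y = f y' → f (sg x y) = f (sg x' y'))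
    (h : f 2 = f 4) : ∀ i, f 0 = f i := by
  have h1 : f 3 = f 5 := hf 2 4 0 0 h rfl
  have h2 : f 1 = f 6 := hf 0 0 2 4 rfl h
  have h3 : f 1 = f 7 := hf 2 4 1 1 h rfl
  have h4 : f 7 = f 0 := hf 1 1 2 4 rfl h
  have h5 : f 2 = f 6 := hf 2 4 2 2 h rfl
  have h6 : f 7 = f 3 := hf 3 3 2 4 rfl h
  intro i
  fin_cases i
  · rfl
  · exact (h4.symm).trans (h3.symm)
  · exact (((h4.symm).trans (h3.symm)).trans h2).trans (h5.symm)
  · exact (h4.symm).trans h6
  · exact ((((h4.symm).trans (h3.symm)).trans h2).trans (h5.symm)).trans h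
  · exact ((h4.symm).trans h6).trans h1
  · exact ((h4.symm).trans (h3.symm)).trans h2
  · exact h4.symm

theorem all_2_5 {α : Type*} (f : Fin 8 → α)
    (hf : ∀ x x' y y' : Fin 8, f x = f x' → f y = f y' → f (sg x y) = f (sg x' y'))
    (h : f 2 = f 5) : ∀ i, f 0 = f i := by
  have h1 : f 3 = f 2 := hf 2 5 0 0 h rfl
  have h2 : f 1 = f 7 := hf 0 0 2 5 rfl h
  have h3 : f 1 = f 3 := hf 2 5 1 1 h rfl
  have h4 : f 2 = f 0 := hf 2 5 2 2 h rfl
  have h5 : f 6 = f 4 := hf 2 5 4 4 h rfl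
  have h6 : f 6 = f 0 := hf 4 4 2 5 rfl h
  intro i
  fin_cases i
  · rfl
  · exact ((h4.symm).trans (h1.symm)).trans (h3.symm)
  · exact h4.symm
  · exact (h4.symm).trans (h1.symm)
  · exact (h6.symm).trans h5
  · exact (h4.symm).trans h
  · exact h6.symm
  · exact (((h4.symm).trans (h1.symm)).trans (h3.symm)).trans h2

theorem all_2_6 {α : Type*} (f : Fin 8 → α)
    (hf : ∀ x x' y y' : Fin 8, f x = f x' → f y = f y' → f (sg x y) = f (sg x' y'))
    (h : f 2 = f 6) : ∀ i, f 0 = f i := by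
  have h1 : f 3 = f 4 := hf 2 6 0 0 h rfl
  have h2 : f 1 = f 4 := hf 0 0 2 6 rfl h
  have h3 : f 1 = f 6 := hf 2 6 1 1 h rfl
  have h4 : f 7 = f 1 := hf 1 1 2 6 rfl h
  have h5 : f 0 = f 5 := hf 2 6 3 3 h rfl
  have h6 : f 7 = f 0 := hf 2 6 5 5 h rfl
  intro i
  fin_cases i
  · rfl
  · exact (h6.symm).trans h4
  · exact (((h6.symm).trans h4).trans h3).trans (h.symm)
  · exact (((h6.symm).trans h4).trans h2).trans (h1.symm)
  · exact ((h6.symm).trans h4).trans h2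
  · exact h5
  · exact ((h6.symm).trans h4).trans h3
  · exact h6.symm

theorem all_2_7 {α : Type*} (f : Fin 8 → α)
    (hf : ∀ x x' y y' : Fin 8, f x = f x' → f y = f y' → f (sg x y) = f (sg x' y'))
    (h : f 2 = f 7) : ∀ i, f 0 = f i := by
  have h1 : f 3 = f 2 := hf 2 7 0 0 h rfl
  have h2 : f 1 = f 5 := hf 0 0 2 7 rfl h
  have h3 : f 1 = f 3 := hf 2 7 1 1 h rfl
  have h4 : f 2 = f 0 := hf 2 7 2 2 h rfl
  have h5 : f 6 = f 5 := hf 2 7 4 4 h rfl
  have h6 : f 7 = f 4 := hf 2 7 5 5 h rfl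
  intro i
  fin_cases i
  · rfl
  · exact ((h4.symm).trans (h1.symm)).trans (h3.symm)
  · exact h4.symm
  · exact (h4.symm).trans (h1.symm)
  · exact ((h4.symm).trans h).trans h6
  · exact (((h4.symm).trans (h1.symm)).trans (h3.symm)).trans h2
  · exact ((((h4.symm).trans (h1.symm)).trans (h3.symm)).trans h2).trans (h5.symm)
  · exact (h4.symm).trans h

theorem all_3_4 {α : Type*} (f : Fin 8 → α)
    (hf : ∀ x x' y y' : Fin 8, f x = f x' → f y = f y' → f (sg x y) = f (sg x' y'))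
    (h : f 3 = f 4) : ∀ i, f 0 = f i := by
  have h1 : f 3 = f 6 := hf 0 0 3 4 rfl h
  have h2 : f 6 = f 7 := hf 3 4 1 1 h rfl
  have h3 : f 4 = f 0 := hf 1 1 3 4 rfl h
  have h4 : f 1 = f 4 := hf 5 5 3 4 rfl h
  have h5 : f 2 = f 1 := hf 3 4 6 6 h rfl
  have h6 : f 5 = f 3 := hf 6 6 3 4 rfl h
  intro i
  fin_cases i
  · rfl
  · exact (h3.symm).trans (h4.symm)
  · exact ((h3.symm).trans (h4.symm)).trans (h5.symm)
  · exact (h3.symm).trans (h.symm)
  · exact h3.symm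
  · exact ((h3.symm).trans (h.symm)).trans (h6.symm)
  · exact ((h3.symm).trans (h.symm)).trans h1
  · exact (((h3.symm).trans (h.symm)).trans h1).trans h2

theorem all_3_5 {α : Type*} (f : Fin 8 → α)
    (hf : ∀ x x' y y' : Fin 8, f x = f x' → f y = f y' → f (sg x y) = f (sg x' y'))
    (h : f 3 = f 5) : ∀ i, f 0 = f i := by
  have h1 : f 5 = f 2 := hf 3 5 0 0 h rfl
  have h2 : f 3 = f 7 := hf 0 0 3 5 rfl h
  have h3 : f 6 = f 3 := hf 3 5 1 1 h rfl
  have h4 : f 4 = f 3 := hf 1 1 3 5 rfl h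
  have h5 : f 7 = f 0 := hf 3 5 2 2 h rfl
  have h6 : f 4 = f 1 := hf 3 5 3 3 h rfl
  intro i
  fin_cases i
  · rfl
  · exact (((h5.symm).trans (h2.symm)).trans (h4.symm)).trans h6
  · exact (((h5.symm).trans (h2.symm)).trans h).trans h1
  · exact (h5.symm).trans (h2.symm)
  · exact ((h5.symm).trans (h2.symm)).trans (h4.symm)
  · exact ((h5.symm).trans (h2.symm)).trans h
  · exact ((h5.symm).trans (h2.symm)).trans (h3.symm)
  · exact h5.symm

theorem all_3_6 {α : Type*} (f : Fin 8 → α)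
    (hf : ∀ x x' y y' : Fin 8, f x = f x' → f y = f y' → f (sg x y) = f (sg x' y'))
    (h : f 3 = f 6) : ∀ i, f 0 = f i := by
  have h1 : f 5 = f 4 := hf 3 6 0 0 h rfl
  have h2 : f 3 = f 4 := hf 0 0 3 6 rfl h
  have h3 : f 4 = f 1 := hf 1 1 3 6 rfl h
  have h4 : f 0 = f 4 := hf 2 2 3 6 rfl h
  have h5 : f 4 = f 2 := hf 3 3 3 6 rfl h
  have h6 : f 1 = f 7 := hf 5 5 3 6 rfl h
  intro i
  fin_cases i
  · rfl
  · exact (h4).trans h3
  · exact (h4).trans h5
  · exact (h4).trans (h2.symm)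
  · exact h4
  · exact (h4).trans (h1.symm)
  · exact ((h4).trans (h2.symm)).trans h
  · exact ((h4).trans h3).trans h6

theorem all_3_7 {α : Type*} (f : Fin 8 → α)
    (hf : ∀ x x' y y' : Fin 8, f x = f x' → f y = f y' → f (sg x y) = f (sg x' y'))
    (h : f 3 = f 7) : ∀ i, f 0 = f i := by
  have h1 : f 5 = f 2 := hf 3 7 0 0 h rfl
  have h2 : f 3 = f 5 := hf 0 0 3 7 rfl h
  have h3 : f 6 = f 3 := hf 3 7 1 1 h rfl
  have h4 : f 4 = f 2 := hf 1 1 3 7 rfl h
  have h5 : f 7 = f 0 := hf 3 7 2 2 h rfl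
  have h6 : f 4 = f 1 := hf 3 7 3 3 h rfl
  intro i
  fin_cases i
  · rfl
  · exact (((((h5.symm).trans (h.symm)).trans h2).trans h1).trans (h4.symm)).trans h6
  · exact (((h5.symm).trans (h.symm)).trans h2).trans h1
  · exact (h5.symm).trans (h.symm)
  · exact ((((h5.symm).trans (h.symm)).trans h2).trans h1).trans (h4.symm)
  · exact ((h5.symm).trans (h.symm)).trans h2
  · exact ((h5.symm).trans (h.symm)).trans (h3.symm)
  · exact h5.symm

theorem all_4_5 {α : Type*} (f : Fin 8 → α)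
    (hf : ∀ x x' y y' : Fin 8, f x = f x' → f y = f y' → f (sg x y) = f (sg x' y'))
    (h : f 4 = f 5) : ∀ i, f 0 = f i := by
  have h1 : f 5 = f 2 := hf 4 5 0 0 h rfl
  have h2 : f 6 = f 7 := hf 0 0 4 5 rfl h
  have h3 : f 7 = f 3 := hf 4 5 1 1 h rfl
  have h4 : f 0 = f 3 := hf 1 1 4 5 rfl h
  have h5 : f 4 = f 1 := hf 4 5 3 3 h rfl
  have h6 : f 3 = f 4 := hf 4 5 4 4 h rfl
  intro i
  fin_cases i
  · rfl
  · exact ((h4).trans h6).trans h5
  · exact (((h4).trans h6).trans h).trans h1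
  · exact h4
  · exact (h4).trans h6
  · exact ((h4).trans h6).trans h
  · exact ((h4).trans (h3.symm)).trans (h2.symm)
  · exact (h4).trans (h3.symm)

theorem all_4_6 {α : Type*} (f : Fin 8 → α)
    (hf : ∀ x x' y y' : Fin 8, f x = f x' → f y = f y' → f (sg x y) = f (sg x' y'))
    (h : f 4 = f 6) : ∀ i, f 0 = f i := by
  have h1 : f 5 = f 4 := hf 4 6 0 0 h rfl
  have h2 : f 7 = f 6 := hf 4 6 1 1 h rfl
  have h3 : f 0 = f 1 := hf 1 1 4 6 rfl h
  have h4 : f 3 = f 2 := hf 3 3 4 6 rfl h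
  have h5 : f 3 = f 1 := hf 4 4 4 6 rfl h
  have h6 : f 2 = f 5 := hf 5 4 0 0 h1 rfl
  intro i
  fin_cases i
  · rfl
  · exact h3
  · exact ((h3).trans (h5.symm)).trans h4
  · exact (h3).trans (h5.symm)
  · exact ((((h3).trans (h5.symm)).trans h4).trans h6).trans h1
  · exact (((h3).trans (h5.symm)).trans h4).trans h6
  · exact (((((h3).trans (h5.symm)).trans h4).trans h6).trans h1).trans h
  · exact ((((((h3).trans (h5.symm)).trans h4).trans h6).trans h1).trans h).trans (h2.symm)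

theorem all_4_7 {α : Type*} (f : Fin 8 → α)
    (hf : ∀ x x' y y' : Fin 8, f x = f x' → f y = f y' → f (sg x y) = f (sg x' y'))
    (h : f 4 = f 7) : ∀ i, f 0 = f i := by
  have h1 : f 5 = f 2 := hf 4 7 0 0 h rfl
  have h2 : f 6 = f 5 := hf 0 0 4 7 rfl h
  have h3 : f 7 = f 3 := hf 4 7 1 1 h rfl
  have h4 : f 0 = f 2 := hf 1 1 4 7 rfl h
  have h5 : f 4 = f 1 := hf 4 7 3 3 h rfl
  have h6 : f 3 = f 5 := hf 4 7 4 4 h rfl
  intro i
  fin_cases i
  · rfl
  · exact (((((h4).trans (h1.symm)).trans (h6.symm)).trans (h3.symm)).trans (h.symm)).trans h5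
  · exact h4
  · exact ((h4).trans (h1.symm)).trans (h6.symm)
  · exact ((((h4).trans (h1.symm)).trans (h6.symm)).trans (h3.symm)).trans (h.symm)
  · exact (h4).trans (h1.symm)
  · exact ((h4).trans (h1.symm)).trans (h2.symm)
  · exact (((h4).trans (h1.symm)).trans (h6.symm)).trans (h3.symm)

theorem all_5_6 {α : Type*} (f : Fin 8 → α)
    (hf : ∀ x x' y y' : Fin 8, f x = f x' → f y = f y' → f (sg x y) = f (sg x' y'))
    (h : f 5 = f 6) : ∀ i, f 0 = f i := by
  have h1 : f 2 = f 4 := hf 5 6 0 0 h rfl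
  have h2 : f 7 = f 4 := hf 0 0 5 6 rfl h
  have h3 : f 3 = f 6 := hf 5 6 1 1 h rfl
  have h4 : f 3 = f 1 := hf 1 1 5 6 rfl h
  have h5 : f 0 = f 7 := hf 5 6 2 2 h rfl
  have h6 : f 4 = f 3 := hf 5 6 4 4 h rfl
  intro i
  fin_cases i
  · rfl
  · exact (((h5).trans h2).trans h6).trans h4
  · exact ((h5).trans h2).trans (h1.symm)
  · exact ((h5).trans h2).trans h6
  · exact (h5).trans h2
  · exact ((((h5).trans h2).trans h6).trans h3).trans (h.symm)
  · exact (((h5).trans h2).trans h6).trans h3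
  · exact h5

theorem all_5_7 {α : Type*} (f : Fin 8 → α)
    (hf : ∀ x x' y y' : Fin 8, f x = f x' → f y = f y' → f (sg x y) = f (sg x' y'))
    (h : f 5 = f 7) : ∀ i, f 0 = f i := by
  have h1 : f 3 = f 2 := hf 1 1 5 7 rfl h
  have h2 : f 0 = f 1 := hf 3 3 5 7 rfl h
  have h3 : f 4 = f 5 := hf 5 7 4 4 h rfl
  have h4 : f 0 = f 2 := hf 4 4 5 7 rfl h
  have h5 : f 5 = f 6 := hf 5 5 5 7 rfl h
  have h6 : f 5 = f 3 := hf 3 2 0 0 h1 rfl
  intro i
  fin_cases i
  · rfl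
  · exact h2
  · exact h4
  · exact (h4).trans (h1.symm)
  · exact (((h4).trans (h1.symm)).trans (h6.symm)).trans (h3.symm)
  · exact ((h4).trans (h1.symm)).trans (h6.symm)
  · exact (((h4).trans (h1.symm)).trans (h6.symm)).trans h5
  · exact (((h4).trans (h1.symm)).trans (h6.symm)).trans h

theorem all_6_7 {α : Type*} (f : Fin 8 → α)
    (hf : ∀ x x' y y' : Fin 8, f x = f x' → f y = f y' → f (sg x y) = f (sg x' y'))
    (h : f 6 = f 7) : ∀ i, f 0 = f i := by
  have h1 : f 4 = f 2 := hf 6 7 0 0 h rfl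
  have h2 : f 4 = f 5 := hf 0 0 6 7 rfl h
  have h3 : f 6 = f 3 := hf 6 7 1 1 h rfl
  have h4 : f 1 = f 2 := hf 1 1 6 7 rfl h
  have h5 : f 7 = f 0 := hf 6 7 2 2 h rfl
  have h6 : f 3 = f 5 := hf 6 7 4 4 h rfl
  intro i
  fin_cases i
  · rfl
  · exact ((((((h5.symm).trans (h.symm)).trans h3).trans h6).trans (h2.symm)).trans h1).trans (h4.symm)
  · exact (((((h5.symm).trans (h.symm)).trans h3).trans h6).trans (h2.symm)).trans h1
  · exact ((h5.symm).trans (h.symm)).trans h3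
  · exact ((((h5.symm).trans (h.symm)).trans h3).trans h6).trans (h2.symm)
  · exact (((h5.symm).trans (h.symm)).trans h3).trans h6
  · exact (h5.symm).trans (h.symm)
  · exact h5.symm

theorem all_eq {α : Type*} (f : Fin 8 → α)
    (hf : ∀ x x' y y' : Fin 8, f x = f x' → f y = f y' → f (sg x y) = f (sg x' y'))
    (a b : Fin 8) (hab : a ≠ b) (h : f a = f b) : ∀ i, f 0 = f i := by
  have key : ∀ a b : Fin 8, a < b → f a = f b → ∀ i, f 0 = f i := by
    intro a b hlt h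
    fin_cases a <;> fin_cases b <;> first
      | exact absurd hlt (by decide)
      | exact all_0_1 f hf h
      | exact all_0_2 f hf h
      | exact all_0_3 f hf h
      | exact all_0_4 f hf h
      | exact all_0_5 f hf h
      | exact all_0_6 f hf h
      | exact all_0_7 f hf h
      | exact all_1_2 f hf h
      | exact all_1_3 f hf h
      | exact all_1_4 f hf h
      | exact all_1_5 f hf h
      | exact all_1_6 f hf h
      | exact all_1_7 f hf h
      | exact all_2_3 f hf h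
      | exact all_2_4 f hf h
      | exact all_2_5 f hf h
      | exact all_2_6 f hf h
      | exact all_2_7 f hf h
      | exact all_3_4 f hf h
      | exact all_3_5 f hf h
      | exact all_3_6 f hf h
      | exact all_3_7 f hf h
      | exact all_4_5 f hf h
      | exact all_4_6 f hf h
      | exact all_4_7 f hf h
      | exact all_5_6 f hf h
      | exact all_5_7 f hf h
      | exact all_6_7 f hf h
  rcases lt_or_gt_of_ne hab with h1 | h1
  · exact key a b h1 h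
  · exact key b a h1 h.symm

/-- the identification of `Fin 2 × Fin 4` with `Fin 8` -/
def e : Fin 2 × Fin 4 ≃ Fin 8 := finProdFinEquiv

/-- the map `r` on `X = Y × Z`, `Y = Fin 2`, `Z = Fin 4` -/
def rr (p : (Fin 2 × Fin 4) × (Fin 2 × Fin 4)) : (Fin 2 × Fin 4) × (Fin 2 × Fin 4) :=
  (e.symm (sg (e p.1) (e p.2)), e.symm (ta (e p.2) (e p.1)))

theorem rr_invol : ∀ p, rr (rr p) = p := by decide +kernel

set_option maxRecDepth 100000 in
/-- the solution -/
def sol : Solution (Fin 2 × Fin 4) where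
  r := rr
  bij := Function.Involutive.bijective rr_invol
  braid := by decide +kernel
  invol := rr_invol
  left := by
    intro x
    have h : ∀ x, Function.Injective fun y => (rr (x, y)).1 := by decide +kernel
    exact Finite.injective_iff_bijective.mp (h x)
  right := by
    intro y
    have h : ∀ y, Function.Injective fun x => (rr (x, y)).2 := by decide +kernel
    exact Finite.injective_iff_bijective.mp (h y)

theorem sol_simple.{v} : Solution.IsSimple.{0, v} sol := by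
  refine ⟨inferInstance, ?_⟩
  intro X' S' f hf hsurj
  by_cases hinj : Function.Injective f
  · exact Or.inl ⟨hinj, hsurj⟩
  · right
    have h1 : ∃ a b, f a = f b ∧ a ≠ b := by
      by_contra hcon
      push Not at hcon
      exact hinj fun a b hab => hcon a b hab
    obtain ⟨a, b, hab, hne⟩ := h1
    have hcomp : ∀ x y : Fin 8, f (e.symm (sg x y)) = (S'.r (f (e.symm x), f (e.symm y))).1 := by
      intro x y
      have h2 := congrArg Prod.fst (hf (e.symm x, e.symm y))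
      rw [← h2]
      simp [sol, rr]
    have h3 := all_eq (fun i => f (e.symm i)) (fun x x' y y' hx hy => by
      have hx' : f (e.symm x) = f (e.symm x') := hx
      have hy' : f (e.symm y) = f (e.symm y') := hy
      show f (e.symm (sg x y)) = f (e.symm (sg x' y'))
      rw [hcomp, hcomp, hx', hy']) (e a) (e b) (fun h => hne (e.injective h)) (by simpa using hab)
    rw [Nat.card_eq_one_iff_unique]
    refine ⟨⟨fun u v => ?_⟩, ⟨f (0, 0)⟩⟩
    obtain ⟨x, rfl⟩ := hsurj u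
    obtain ⟨y, rfl⟩ := hsurj v
    have h4 := h3 (e x)
    have h5 := h3 (e y)
    simp only [Equiv.symm_apply_apply] at h4 h5
    rw [← h4, ← h5]

/-- every element of the group permutes the blocks `{y} × Z` -/
theorem blocks : ∀ g ∈ sol.G, ∀ y : Fin 2, ∃ y' : Fin 2,
    (fun x => g x) '' {x : Fin 2 × Fin 4 | x.1 = y} = {x : Fin 2 × Fin 4 | x.1 = y'} := by
  have hgen : ∀ x : Fin 2 × Fin 4, ∀ u v : Fin 2 × Fin 4,
      u.1 = v.1 ↔ (sol.sigma x u).1 = (sol.sigma x v).1 := by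
    have h : ∀ x : Fin 2 × Fin 4, ∀ u v : Fin 2 × Fin 4,
      u.1 = v.1 ↔ ((rr (x, u)).1).1 = ((rr (x, v)).1).1 := by decide +kernel
    exact h
  have hall : ∀ g ∈ sol.G, ∀ u v : Fin 2 × Fin 4, u.1 = v.1 ↔ (g u).1 = (g v).1 := by
    intro g hg
    refine Subgroup.closure_induction (p := fun g _ => ∀ u v : Fin 2 × Fin 4,
      u.1 = v.1 ↔ (g u).1 = (g v).1) ?_ ?_ ?_ ?_ hg
    · rintro _ ⟨x, rfl⟩ u v
      exact hgen x u v
    · intro u v
      rfl
    · intro g h _ _ hg hh u v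
      rw [hh u v, hg (h u) (h v)]
      rfl
    · intro g _ hg u v
      rw [hg (g⁻¹ u) (g⁻¹ v)]
      simp
  intro g hg y
  have h1 := hall g hg
  refine ⟨(g (y, 0)).1, ?_⟩
  ext x
  simp only [Set.mem_image, Set.mem_ofPred_eq]
  constructor
  · rintro ⟨u, hu, rfl⟩
    exact (h1 u (y, 0)).mp hu
  · intro hx
    refine ⟨g.symm x, ?_, by simp⟩
    have h2 := (h1 (g.symm x) (y, 0)).mpr (by simpa using hx)
    exact h2

/-- **Q1: yes.**  There is a finite simple (involutive non-degenerate) solution on `X = Y × Z`,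
`|Y| = 2`, `|Z| = 4`, such that the sets `X_y = {y} × Z` are blocks of imprimitivity for
`𝒢(X, r)`; here `|Z| = 4` does not divide `|Y| = 2`. -/
theorem result.{v} : ∃ S : Solution (Fin 2 × Fin 4), Solution.IsSimple.{0, v} S ∧
    (∀ g ∈ S.G, ∀ y : Fin 2, ∃ y' : Fin 2,
      (fun x => g x) '' {x : Fin 2 × Fin 4 | x.1 = y} = {x : Fin 2 × Fin 4 | x.1 = y'}) ∧
    1 < Nat.card (Fin 2) ∧ 1 < Nat.card (Fin 4) ∧ ¬ Nat.card (Fin 4) ∣ Nat.card (Fin 2) :=
  ⟨sol, sol_simple, blocks, by simp, by simp, by simp⟩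

end Pool.Agent.Results.MP_9f168b_al.TwoByFour
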